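import Pool.Agent.helper41.HFE.Spec

set_option autoImplicit false

open Polynomial Module Pool.Agent.HFN

namespace Pool.Agent.HFE

noncomputable section

theorem MNC_Mx {h h' : ℕ} (M : Finset (Fin h × Fin h')) (v v' i j : ℕ) (h1 : v ≤ v') (h2 : v' ≤ max v 4)
    (h3 : 8 ≤ i + j + 1) : Mx M v' i j = Mx M v i j := by
  have key : 2 * v' - (i + j + 1) = 2 * v - (i + j + 1) := by
    rcases le_total v 4 with h4 | h4
    · rw [max_eq_right h4] at h2
      omega
    · rw [max_eq_left h4] at h2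
      omega
  unfold Mx
  rw [key]

theorem MNC : MNC_stmt := by
  intro hAFF hEXM hDEF hNUT hTRM hVal hIMX hPRM hRLZ r hr
  constructor
  · intro Y hY
    obtain ⟨Z, hZ1, hZ2⟩ := hAFF.1 Y
    obtain ⟨h, h', x, y, M, hx, hy, hc, hro, hM, hZ⟩ := hEXM Z
    obtain ⟨v, hv⟩ := hIMX Z
    obtain ⟨f, hf, hfv⟩ := hv.2
    obtain ⟨W, hWM, hPP, hWc⟩ := hPRM h h' x y M hx hy f hf
    rw [hZ, hfv] at hWc
    have hMr : M.card = r := by rw [hM, hZ1, hY]
    refine ⟨h, h', M, v, ⟨hMr, hc, hro, W, hWM, hPP, hWc⟩, ?_⟩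
    intro i j hT
    have hv' : IsMx (Pool.Agent.helper29.JZ.ZZ x y M) v := by
      rw [hZ]
      exact hv
    have h6 : 6 ≤ M.card := by omega
    have hT' : TT M.card i j := by
      rw [hMr]
      exact hT
    have h7 := hVal h h' x y M v hx hy hc hro h6 hv' i j hT'
    rw [hZ] at h7
    have h8 := hDEF Z i j
    have h9 := hZ2 i j
    rw [h7] at h8
    have h10 : (Z.card : ℤ) = (r : ℤ) := by
      rw [hZ1, hY]
    rw [h10] at h8
    omega
  · intro h h' M v hD
    obtain ⟨hMr, hc, hro, hW⟩ := hD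
    obtain ⟨x, y, hx, hy, v', hv', hle, hle'⟩ := hRLZ h h' M v hW
    have h6 : 6 ≤ M.card := by omega
    obtain ⟨hcard, -⟩ := hTRM h h' x y M hx hy hc hro (by omega)
    obtain ⟨Y, hY1, hY2⟩ := hAFF.2 (Pool.Agent.helper29.JZ.ZZ x y M)
    refine ⟨Y, by omega, ?_⟩
    intro i j hT
    have hT' : TT M.card i j := by
      rw [hMr]
      exact hT
    have h7 := hVal h h' x y M v' hx hy hc hro h6 hv' i j hT'
    have h8 := hDEF (Pool.Agent.helper29.JZ.ZZ x y M) i j
    have h9 := hY2 i j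
    have h10 := (hNUT r i j hr hT).2.1
    rw [MNC_Mx M v v' i j hle hle' h10] at h7
    rw [h7] at h8
    have h11 : ((Pool.Agent.helper29.JZ.ZZ x y M).card : ℤ) = (r : ℤ) := by
      rw [hcard, hMr]
    rw [h11] at h8
    omega

end

end Pool.Agent.HFE
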