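import Pool.Agent.helper41.HFE.SpecD

set_option autoImplicit false

open Polynomial Module Pool.Agent.HFN

namespace Pool.Agent.HFE

noncomputable section

theorem SWB_card (Z : Finset (ℂ × ℂ)) (p q : ℂ × ℂ → Prop) [DecidablePred p] [DecidablePred q] [DecidableEq (ℂ × ℂ)]
    (h : ∀ z, p z.swap ↔ q z) : ((Z.image Prod.swap).filter p).card = (Z.filter q).card := by
  rw [Finset.filter_image, Finset.card_image_of_injective _ Prod.swap_injective]
  congr 1
  exact Finset.filter_congr fun z _ => h z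

theorem SWB_imim {α β : Type} [DecidableEq (α × β)] [DecidableEq (β × α)] (Z : Finset (α × β)) :
    (Z.image Prod.swap).image Prod.swap = Z := by
  rw [Finset.image_image]
  have : (Prod.swap ∘ Prod.swap : α × β → α × β) = id := by
    funext z
    exact Prod.swap_swap z
  rw [this, Finset.image_id]

theorem SWB_one (Z : Finset (ℂ × ℂ)) (g : AA) (h : Big Z g) : Big (Z.image Prod.swap) (sw g) := by
  classical
  have hcard : (Z.image Prod.swap).card = Z.card := Finset.card_image_of_injective _ Prod.swap_injective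
  have hnn : nn (Z.image Prod.swap) (sw g) = nn Z g := by
    unfold nn
    exact SWB_card Z (fun z => ev z (sw g) = 0) (fun z => ev z g = 0) (fun z => by rw [ev_sw, Prod.swap_swap])
  have hmr : ∀ y : ℂ, mr (Z.image Prod.swap) y = nc Z y := by
    intro y
    unfold mr nc
    exact SWB_card Z (fun z => z.2 = y) (fun z => z.1 = y) (fun z => by rw [Prod.snd_swap])
  have hnc : ∀ y : ℂ, nc (Z.image Prod.swap) y = mr Z y := by
    intro y
    unfold mr nc
    exact SWB_card Z (fun z => z.1 = y) (fun z => z.2 = y) (fun z => by rw [Prod.fst_swap])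
  obtain ⟨h1, h2, h3, h4, h5, w, s, h6, h7, h8, h9⟩ := h
  refine ⟨?_, ?_, ?_, ?_, ?_, w, s, ?_, ?_, ?_, ?_⟩
  · exact (MulEquiv.irreducible_iff sw).2 h1
  · rw [dX_sw, dY_sw]
    exact h2.symm
  · rw [dX_sw]
    exact h4
  · rw [dY_sw]
    exact h3
  · rw [hcard]
    exact h5
  · rw [hcard]
    exact h6
  · rw [hcard, hnn]
    exact h7
  · rw [hcard, hnn, dX_sw, dY_sw, mul_comm (dY g) (dX g)]
    exact h8
  · rcases h9 with h9 | ⟨y, hy1, hy2⟩ | ⟨x, hx1, hx2⟩
    · exact Or.inl h9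
    · refine Or.inr (Or.inr ⟨y, ?_, ?_⟩)
      · rw [hnc]
        exact hy1
      · intro z hz hzy
        obtain ⟨u, hu, rfl⟩ := Finset.mem_image.1 hz
        rw [ev_sw, Prod.swap_swap]
        exact hy2 u hu hzy
    · refine Or.inr (Or.inl ⟨x, ?_, ?_⟩)
      · rw [hmr]
        exact hx1
      · intro z hz hzy
        obtain ⟨u, hu, rfl⟩ := Finset.mem_image.1 hz
        rw [ev_sw, Prod.swap_swap]
        exact hx2 u hu hzy

theorem SWB_JJ (Z : Finset (ℂ × ℂ)) : JJ (Z.image Prod.swap) two = (JJ Z two).comap (sw : AA →+* AA) := by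
  ext f
  have key : ∀ z : ℂ × ℂ, Kc (two z) z (sw f) ↔ Kc (two z.swap) z.swap f := by
    intro z
    unfold Kc two
    rw [ev_sw, Db_sw]
  constructor
  · intro hf
    show sw f ∈ JJ Z two
    rw [mem_JJ] at hf ⊢
    intro z hz
    rw [key]
    exact hf z.swap (Finset.mem_image_of_mem _ hz)
  · intro hf
    have hf' : sw f ∈ JJ Z two := hf
    rw [mem_JJ] at hf' ⊢
    intro z hz
    obtain ⟨u, hu, rfl⟩ := Finset.mem_image.1 hz
    rw [← key]
    exact hf' u hu

theorem SWB_map (J : Ideal AA) (i j : ℕ) :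
    (V j i ⊓ (J.comap (sw : AA →+* AA)).restrictScalars ℂ : Submodule ℂ AA) =
      (V i j ⊓ J.restrictScalars ℂ : Submodule ℂ AA).map (sw.toLinearEquiv : AA →ₗ[ℂ] AA) := by
  ext f
  constructor
  · rintro ⟨h1, h2⟩
    refine ⟨sw f, ⟨sw_mem_V.2 h1, h2⟩, ?_⟩
    show sw (sw f) = f
    exact sw_sw f
  · rintro ⟨g, ⟨h1, h2⟩, rfl⟩
    refine ⟨sw_mem_V.2 h1, ?_⟩
    show sw (sw g) ∈ J
    rw [sw_sw]
    exact h2

theorem SWB_hd (J : Ideal AA) (i j : ℕ) : hd (J.comap (sw : AA →+* AA)) j i = hd J i j := by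
  unfold hd
  rw [SWB_map, LinearEquiv.finrank_map_eq]

theorem SWB_df (hDEF : DEF_stmt) (Z : Finset (ℂ × ℂ)) (i j : ℕ) : df (Z.image Prod.swap) j i = df Z i j := by
  have h1 := hDEF (Z.image Prod.swap) j i
  have h2 := hDEF Z i j
  have hcard : (Z.image Prod.swap).card = Z.card := Finset.card_image_of_injective _ Prod.swap_injective
  have h3 : HH (Z.image Prod.swap) j i = HH Z i j := by
    unfold HH
    rw [SWB_JJ, SWB_hd, mul_comm (j + 1) (i + 1)]
  rw [hcard, h3, ← h2] at h1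
  exact_mod_cast h1

theorem SWB_chi (i j a b : ℕ) : chi j i b a = chi i j a b := by
  unfold chi
  rw [mul_comm (j + 1) (i + 1), mul_comm (j + 1 - b) (i + 1 - a)]

theorem SWB_Lm {h h' : ℕ} (M W : Finset (Fin h × Fin h')) (ε : ℕ) (e' : Fin h → ℕ) (e : Fin h' → ℕ) :
    Lm (Pool.Agent.helper29.JZ.tr M) (Pool.Agent.helper29.JZ.tr W) ε e e' = Lm M W ε e' e := by
  unfold Lm Pool.Agent.helper29.JZ.tr
  rw [Finset.sum_image (fun a _ b _ hab => Prod.swap_injective hab)]
  refine Finset.sum_congr rfl fun p _ => ?_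
  have h1 : p.swap ∈ W.image Prod.swap ↔ p ∈ W := by
    constructor
    · intro hp
      obtain ⟨u, hu, hu'⟩ := Finset.mem_image.1 hp
      rw [← Prod.swap_injective hu']
      exact hu
    · intro hp
      exact Finset.mem_image_of_mem _ hp
  rw [if_congr h1 rfl rfl, Prod.fst_swap, Prod.snd_swap]
  congr 1
  ring

theorem SWB_Df_le {h h' : ℕ} (M W : Finset (Fin h × Fin h')) (a b i j : ℕ) :
    Df M W a b i j ≤ Df (Pool.Agent.helper29.JZ.tr M) (Pool.Agent.helper29.JZ.tr W) b a j i := by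
  unfold Df
  refine Finset.sup_le fun q _ => ?_
  have h1 := Finset.le_sup (s := Finset.univ) (f := fun q : Fin 2 × (Fin h' → Fin 3) × (Fin h → Fin 3) =>
    Lm (Pool.Agent.helper29.JZ.tr M) (Pool.Agent.helper29.JZ.tr W) q.1 (fun k => q.2.1 k) (fun m => q.2.2 m) -
      chi j i (q.1 * b + ∑ k, (q.2.1 k : ℕ)) (q.1 * a + ∑ m, (q.2.2 m : ℕ))) (b := (q.1, q.2.2, q.2.1)) (Finset.mem_univ _)
  refine le_trans (le_of_eq ?_) h1
  show _ = Lm (Pool.Agent.helper29.JZ.tr M) (Pool.Agent.helper29.JZ.tr W) q.1 (fun k => q.2.2 k) (fun m => q.2.1 m) -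
      chi j i (q.1 * b + ∑ k, (q.2.2 k : ℕ)) (q.1 * a + ∑ m, (q.2.1 m : ℕ))
  rw [SWB_Lm, SWB_chi]

theorem SWB_trtr {h h' : ℕ} (M : Finset (Fin h × Fin h')) :
    Pool.Agent.helper29.JZ.tr (Pool.Agent.helper29.JZ.tr M) = M := by
  unfold Pool.Agent.helper29.JZ.tr
  exact SWB_imim M

theorem SWB (hDEF : DEF_stmt) : SWB_stmt := by
  refine ⟨?_, SWB_df hDEF, ?_, ?_, ?_⟩
  · intro Z g
    constructor
    · intro h
      have h1 := SWB_one (Z.image Prod.swap) (sw g) h
      rw [sw_sw, SWB_imim] at h1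
      exact h1
    · exact SWB_one Z g
  · intro h h' x y M
    unfold Pool.Agent.helper29.JZ.ZZ Pool.Agent.helper29.JZ.tr
    rw [Finset.image_image, Finset.image_image]
    rfl
  · intro h h' M W a b i j
    apply le_antisymm
    · have h1 := SWB_Df_le (Pool.Agent.helper29.JZ.tr M) (Pool.Agent.helper29.JZ.tr W) b a j i
      rw [SWB_trtr, SWB_trtr] at h1
      exact h1
    · exact SWB_Df_le M W a b i j
  · intro r i j hO
    exact ⟨by rw [add_comm j i]; exact hO.1, hO.2.2, hO.2.1⟩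

end

end Pool.Agent.HFE
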